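import Pool.Agent.H93.EN.Targets4

/-!
# Bessel's inequality on the circle (row B1 of the board `en_modules`)
-/

set_option autoImplicit false

open MeasureTheory Set Metric Filter Topology Pool.Agent.H93.EN
open Pool.Agent.H93.BL hiding T_B1 T_B2 T_B3 T_SB T_SC

namespace Pool.Agent.H15.EN

/-- the exponential of frequency `k` -/
noncomputable def ee (k : ℤ) (θ : ℝ) : ℂ := Complex.exp ((k : ℂ) * (θ : ℂ) * Complex.I)

lemma continuous_ee (k : ℤ) : Continuous (ee k) := by unfold ee; fun_prop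

lemma conj_ee (k : ℤ) (θ : ℝ) : (starRingEnd ℂ) (ee k θ) = ee (-k) θ := by
  unfold ee
  rw [← Complex.exp_conj]
  congr 1
  simp only [map_mul, Complex.conj_ofReal, Complex.conj_I, map_intCast]
  push_cast
  ring

lemma integral_ee (k : ℤ) : ∫ θ in (0 : ℝ)..(2 * Real.pi), ee k θ =
    if k = 0 then ((2 * Real.pi : ℝ) : ℂ) else 0 := by
  split_ifs with h
  · subst h
    have : ∀ θ : ℝ, ee 0 θ = 1 := fun θ => by simp [ee]
    simp only [this]
    rw [intervalIntegral.integral_const]
    simp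
  · have hk : (k : ℂ) * Complex.I ≠ 0 :=
      mul_ne_zero (by exact_mod_cast h) Complex.I_ne_zero
    have h2 : ∀ θ : ℝ, ee k θ = Complex.exp ((k : ℂ) * Complex.I * θ) := fun θ => by
      unfold ee; congr 1; ring
    simp only [h2]
    rw [integral_exp_mul_complex hk]
    have h3 : Complex.exp ((k : ℂ) * Complex.I * ((2 * Real.pi : ℝ) : ℂ)) = 1 := by
      rw [Complex.exp_eq_one_iff]
      exact ⟨k, by push_cast; ring⟩
    rw [h3]
    simp

lemma ee_mul (k l : ℤ) (θ : ℝ) : ee k θ * ee l θ = ee (k + l) θ := by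
  unfold ee
  rw [← Complex.exp_add]
  congr 1
  push_cast
  ring

lemma measure_uIoc_ne_top {a b : ℝ} : volume (Set.uIoc a b) ≠ ⊤ := by
  rw [Set.uIoc, Real.volume_Ioc]
  exact ENNReal.ofReal_ne_top

theorem b1 : T_B1 := by
  intro g hg hC s
  obtain ⟨C, hC⟩ := hC
  set G : ℝ → ℂ := fun θ => (g (Complex.exp ((θ : ℂ) * Complex.I)) : ℂ) with hG
  have hGm : Measurable G := by
    rw [hG]
    exact Complex.measurable_ofReal.comp (hg.comp (by fun_prop))
  have hGb : ∀ θ, ‖G θ‖ ≤ C := fun θ => by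
    rw [hG]
    simp only [Complex.norm_real, Real.norm_eq_abs]
    exact hC _
  have hGi : IntervalIntegrable G volume 0 (2 * Real.pi) := by
    rw [intervalIntegrable_iff]
    exact Measure.integrableOn_of_bounded (M := C) measure_uIoc_ne_top hGm.aestronglyMeasurable
      (Eventually.of_forall hGb)
  have hGG : IntervalIntegrable (fun θ => G θ * G θ) volume 0 (2 * Real.pi) := by
    rw [intervalIntegrable_iff]
    refine Measure.integrableOn_of_bounded (M := C * C) measure_uIoc_ne_top
      (hGm.mul hGm).aestronglyMeasurable (Eventually.of_forall fun θ => ?_)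
    rw [norm_mul]
    exact mul_le_mul (hGb θ) (hGb θ) (norm_nonneg _) ((norm_nonneg _).trans (hGb θ))
  have hpi : ((2 * Real.pi : ℝ) : ℂ) ≠ 0 := by
    exact_mod_cast Real.two_pi_pos.ne'
  set c : ℤ → ℂ := fun k => md g k with hc
  have hmd : ∀ k, ∫ θ in (0 : ℝ)..(2 * Real.pi), G θ * ee (-k) θ =
      ((2 * Real.pi : ℝ) : ℂ) * c k := by
    intro k
    rw [hc]
    simp only [md]
    rw [← mul_assoc, ← Complex.ofReal_mul, mul_inv_cancel₀ Real.two_pi_pos.ne',
      Complex.ofReal_one, one_mul]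
    refine intervalIntegral.integral_congr fun θ _ => ?_
    simp only [hG, ee]
    congr 2
    push_cast
    ring
  have hGr : ∀ θ, (starRingEnd ℂ) (G θ) = G θ := fun θ => by
    rw [hG]; exact Complex.conj_ofReal _
  have hmd' : ∀ k, ∫ θ in (0 : ℝ)..(2 * Real.pi), G θ * ee k θ =
      ((2 * Real.pi : ℝ) : ℂ) * (starRingEnd ℂ) (c k) := by
    intro k
    have h1 := congrArg (starRingEnd ℂ) (hmd k)
    rw [map_mul, Complex.conj_ofReal] at h1
    rw [← h1, ← intervalIntegral.intervalIntegral_conj]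
    refine intervalIntegral.integral_congr fun θ _ => ?_
    simp only [map_mul, hGr, conj_ee, neg_neg]
  -- integrability
  have hGe : ∀ k, IntervalIntegrable (fun θ => G θ * ee k θ) volume 0 (2 * Real.pi) := fun k =>
    hGi.mul_continuousOn (continuous_ee k).continuousOn
  set S : ℝ → ℂ := fun θ => ∑ k ∈ s, c k * ee k θ with hS
  set S' : ℝ → ℂ := fun θ => ∑ k ∈ s, (starRingEnd ℂ) (c k) * ee (-k) θ with hS'
  have hSc : Continuous S := by
    rw [hS]
    exact continuous_finsetSum _ fun k _ => continuous_const.mul (continuous_ee k)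
  have hSc' : Continuous S' := by
    rw [hS']
    exact continuous_finsetSum _ fun k _ => continuous_const.mul (continuous_ee (-k))
  have hconj : ∀ θ, (starRingEnd ℂ) (S θ) = S' θ := fun θ => by
    simp only [hS, hS', map_sum, map_mul, conj_ee]
  set M : ℂ := ∑ k ∈ s, (starRingEnd ℂ) (c k) * c k with hM
  have i1 : ∫ θ in (0 : ℝ)..(2 * Real.pi), G θ * S θ = ((2 * Real.pi : ℝ) : ℂ) * M := by
    have h1 : ∀ θ, G θ * S θ = ∑ k ∈ s, c k * (G θ * ee k θ) := fun θ => by
      simp only [hS, Finset.mul_sum]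
      exact Finset.sum_congr rfl fun k _ => by ring
    simp only [h1]
    rw [intervalIntegral.integral_finsetSum fun k _ => (hGe k).const_mul _, hM, Finset.mul_sum]
    refine Finset.sum_congr rfl fun k _ => ?_
    rw [intervalIntegral.integral_const_mul, hmd' k]
    ring
  have i2 : ∫ θ in (0 : ℝ)..(2 * Real.pi), G θ * S' θ = ((2 * Real.pi : ℝ) : ℂ) * M := by
    have h1 : ∀ θ, G θ * S' θ = ∑ k ∈ s, (starRingEnd ℂ) (c k) * (G θ * ee (-k) θ) := fun θ => by
      simp only [hS', Finset.mul_sum]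
      exact Finset.sum_congr rfl fun k _ => by ring
    simp only [h1]
    rw [intervalIntegral.integral_finsetSum fun k _ => (hGe (-k)).const_mul _, hM,
      Finset.mul_sum]
    refine Finset.sum_congr rfl fun k _ => ?_
    rw [intervalIntegral.integral_const_mul, hmd k]
    ring
  have i3 : ∫ θ in (0 : ℝ)..(2 * Real.pi), S θ * S' θ = ((2 * Real.pi : ℝ) : ℂ) * M := by
    have h1 : ∀ θ, S θ * S' θ = ∑ k ∈ s, ∑ l ∈ s,
        (c k * (starRingEnd ℂ) (c l)) * ee (k - l) θ := fun θ => by
      simp only [hS, hS', Finset.sum_mul_sum]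
      refine Finset.sum_congr rfl fun k _ => Finset.sum_congr rfl fun l _ => ?_
      rw [sub_eq_add_neg, ← ee_mul]
      ring
    simp only [h1]
    have hi : ∀ k l : ℤ, IntervalIntegrable
        (fun θ => (c k * (starRingEnd ℂ) (c l)) * ee (k - l) θ) volume 0 (2 * Real.pi) :=
      fun k l => (continuous_const.mul (continuous_ee (k - l))).intervalIntegrable _ _
    have hi2 : ∀ k : ℤ, IntervalIntegrable
        (fun θ => ∑ l ∈ s, (c k * (starRingEnd ℂ) (c l)) * ee (k - l) θ) volume 0 (2 * Real.pi) :=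
      fun k => (continuous_finsetSum s fun l _ =>
        continuous_const.mul (continuous_ee (k - l))).intervalIntegrable _ _
    rw [intervalIntegral.integral_finsetSum fun k _ => hi2 k, hM, Finset.mul_sum]
    refine Finset.sum_congr rfl fun k hk => ?_
    rw [intervalIntegral.integral_finsetSum fun l _ => hi k l]
    simp only [intervalIntegral.integral_const_mul, integral_ee]
    rw [Finset.sum_eq_single_of_mem k hk fun l _ hl => by
      rw [if_neg (sub_ne_zero.2 (Ne.symm hl)), mul_zero]]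
    rw [sub_self, if_pos rfl]
    ring
  have i4 : ∫ θ in (0 : ℝ)..(2 * Real.pi), G θ * G θ =
      ((2 * Real.pi * av (fun w => g w ^ 2) : ℝ) : ℂ) := by
    rw [av, ← mul_assoc, mul_inv_cancel₀ Real.two_pi_pos.ne', one_mul,
      ← intervalIntegral.integral_ofReal]
    refine intervalIntegral.integral_congr fun θ _ => ?_
    simp only [hG]
    push_cast
    ring
  have hGS : IntervalIntegrable (fun θ => G θ * S θ) volume 0 (2 * Real.pi) :=
    hGi.mul_continuousOn hSc.continuousOn
  have hGS' : IntervalIntegrable (fun θ => G θ * S' θ) volume 0 (2 * Real.pi) :=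
    hGi.mul_continuousOn hSc'.continuousOn
  have hSS' : IntervalIntegrable (fun θ => S θ * S' θ) volume 0 (2 * Real.pi) :=
    (hSc.mul hSc').intervalIntegrable _ _
  have i5 : ∫ θ in (0 : ℝ)..(2 * Real.pi), (G θ - S θ) * (starRingEnd ℂ) (G θ - S θ) =
      ((2 * Real.pi * av (fun w => g w ^ 2) : ℝ) : ℂ) - ((2 * Real.pi : ℝ) : ℂ) * M := by
    have h1 : ∀ θ, (G θ - S θ) * (starRingEnd ℂ) (G θ - S θ) =
        G θ * G θ - G θ * S θ - G θ * S' θ + S θ * S' θ := fun θ => by
      rw [map_sub, hGr, hconj]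
      ring
    simp only [h1]
    rw [intervalIntegral.integral_add ((hGG.sub hGS).sub hGS') hSS',
      intervalIntegral.integral_sub (hGG.sub hGS) hGS', intervalIntegral.integral_sub hGG hGS,
      i1, i2, i3, i4]
    ring
  have i6 : ∫ θ in (0 : ℝ)..(2 * Real.pi), (G θ - S θ) * (starRingEnd ℂ) (G θ - S θ) =
      ((∫ θ in (0 : ℝ)..(2 * Real.pi), ‖G θ - S θ‖ ^ 2 : ℝ) : ℂ) := by
    rw [← intervalIntegral.integral_ofReal]
    refine intervalIntegral.integral_congr fun θ _ => ?_
    simp only [Complex.mul_conj, Complex.normSq_eq_norm_sq]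
  have h7 : 0 ≤ ∫ θ in (0 : ℝ)..(2 * Real.pi), ‖G θ - S θ‖ ^ 2 :=
    intervalIntegral.integral_nonneg Real.two_pi_pos.le fun θ _ => sq_nonneg _
  have hMr : M = ((∑ k ∈ s, ‖c k‖ ^ 2 : ℝ) : ℂ) := by
    rw [hM]
    push_cast
    refine Finset.sum_congr rfl fun k _ => ?_
    rw [mul_comm, Complex.mul_conj, Complex.normSq_eq_norm_sq]
    push_cast
    ring
  rw [i6, hMr, ← Complex.ofReal_mul, ← Complex.ofReal_sub, Complex.ofReal_inj] at i5
  rw [i5] at h7
  have h8 : 0 ≤ 2 * Real.pi * (av (fun w => g w ^ 2) - ∑ k ∈ s, ‖c k‖ ^ 2) := by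
    linarith
  have h9 := nonneg_of_mul_nonneg_right h8 Real.two_pi_pos
  linarith

end Pool.Agent.H15.EN
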