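import Pool.Agent.H93.EN.Targets4

/-!
# Points near the bad points lie in embedded corners (row COV of the board `en_modules`)
-/

set_option autoImplicit false

open MeasureTheory Set Metric Filter Topology Pool.Agent.H93.EN
open Pool.Agent.H93.BL hiding T_B1 T_B2 T_B3 T_SB T_SC

namespace Pool.Agent.H15.EN

/-- a common radius for finitely many points -/
lemma common_radius {B : Set ℂ} (hB : B.Finite) (G : ℂ → ℝ → Prop)
    (hG : ∀ b ∈ B, ∃ ρ > (0 : ℝ), G b ρ)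
    (hm : ∀ b ρ ρ', 0 < ρ' → ρ' ≤ ρ → G b ρ → G b ρ') :
    ∃ ρ > (0 : ℝ), ∀ b ∈ B, G b ρ := by
  induction B, hB using Set.Finite.induction_on with
  | empty => exact ⟨1, one_pos, fun b hb => absurd hb (Set.notMem_empty b)⟩
  | @insert a s _ _ ih =>
    obtain ⟨ρ, hρ, h1⟩ := ih fun b hb => hG b (Set.mem_insert_of_mem a hb)
    obtain ⟨ρ', hρ', h2⟩ := hG a (Set.mem_insert a s)
    refine ⟨min ρ ρ', lt_min hρ hρ', fun b hb => ?_⟩
    rcases Set.mem_insert_iff.1 hb with rfl | hb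
    · exact hm _ _ _ (lt_min hρ hρ') (min_le_right _ _) h2
    · exact hm _ _ _ (lt_min hρ hρ') (min_le_left _ _) (h1 b hb)

lemma norm_uv {ι : Type} (P : Polygon ι) (j : ι) (θ : ℝ) : ‖uv P j θ‖ = 1 := by
  unfold uv
  rw [norm_mul, Complex.norm_exp_ofReal_mul_I, one_mul, P.norm_u j]

lemma dist_pt {ι : Type} (P : Polygon ι) (j : ι) {s : ℝ} (hs : 0 < s) (θ : ℝ) :
    dist (pt P j s θ) (P.p j) = s := by
  unfold pt
  rw [dist_eq_norm, add_sub_cancel_left, norm_mul, norm_uv, mul_one, Complex.norm_real,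
    Real.norm_of_nonneg hs.le]

theorem cov (h1 : T_VXS) : T_COV := by
  intro ι _ D
  -- separation of a point from the other bad points
  have hsep : ∀ b ∈ D.B, ∃ ρ > (0 : ℝ), ∀ b' ∈ D.B, b' ≠ b → 2 * ρ ≤ dist b b' := by
    intro b _
    have h2 := common_radius D.Bfin (fun b' ρ => b' ≠ b → 2 * ρ ≤ dist b b')
      (fun b' _ => by
        by_cases h : b' = b
        · exact ⟨1, one_pos, fun h' => absurd h h'⟩
        · refine ⟨dist b b' / 2, ?_, fun _ => by linarith⟩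
          have := dist_pos.2 (Ne.symm h)
          linarith)
      (fun b' ρ ρ' _ h3 h4 h5 => by
        have := h4 h5
        linarith)
    obtain ⟨ρ, hρ, h3⟩ := h2
    exact ⟨ρ, hρ, h3⟩
  -- the local statement
  have hloc := common_radius D.Bfin
    (fun b ρ => (∀ b' ∈ D.B, b' ≠ b → 2 * ρ ≤ dist b b') ∧
      ∀ r ∈ Ioc 0 ρ, ∀ x ∈ D.P.Ω, dist x b < r → ∃ i j α, D.P.q i = D.P.p j ∧ D.P.p j = b ∧
        0 < α ∧ α ≤ 2 * Real.pi ∧ -D.P.u i = uv D.P j α ∧ r ≤ D.P.len i ∧ r ≤ D.P.len j ∧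
        (∀ s ∈ Ioo 0 r, ∀ θ ∈ Ioo 0 α, pt D.P j s θ ∈ D.P.Ω) ∧
        ∃ θ ∈ Ioo 0 α, x = pt D.P j (dist x b) θ)
    (fun b hb => by
      obtain ⟨ρ₁, hρ₁, h2⟩ := hsep b hb
      rcases D.Bsub b hb with hv | hc
      · obtain ⟨ρ₂, hρ₂, h3⟩ := h1 ι D.P b hv
        refine ⟨min ρ₁ ρ₂, lt_min hρ₁ hρ₂, ?_, ?_⟩
        · intro b' hb' hne
          have := h2 b' hb' hne
          have := min_le_left ρ₁ ρ₂
          linarith
        · intro r hr
          exact h3 r ⟨hr.1, hr.2.trans (min_le_right _ _)⟩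
      · have h4 : ∃ ρ₂ > (0 : ℝ), ball b ρ₂ ⊆ (closure D.P.Ω)ᶜ :=
          Metric.isOpen_iff.1 isClosed_closure.isOpen_compl b hc
        obtain ⟨ρ₂, hρ₂, h5⟩ := h4
        refine ⟨min ρ₁ ρ₂, lt_min hρ₁ hρ₂, ?_, ?_⟩
        · intro b' hb' hne
          have := h2 b' hb' hne
          have := min_le_left ρ₁ ρ₂
          linarith
        · intro r hr x hx hd
          have h6 : x ∈ ball b ρ₂ := by
            rw [mem_ball]
            exact hd.trans_le (hr.2.trans (min_le_right _ _))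
          exact absurd (subset_closure hx) (h5 h6))
    (fun b ρ ρ' h2 h3 h4 => ⟨fun b' hb' hne => by
        have := h4.1 b' hb' hne
        linarith, fun r hr => h4.2 r ⟨hr.1, hr.2.trans h3⟩⟩)
  obtain ⟨r₀, hr₀, h2⟩ := hloc
  refine ⟨r₀, hr₀, fun x hx hxr => ?_⟩
  -- the nearest bad point
  obtain ⟨b, hb, hbx⟩ := D.Bfin.isCompact.exists_infDist_eq_dist D.Bne x
  have h3 : D.rho x = dist x b := hbx
  rw [h3] at hxr
  obtain ⟨i, j, α, hqp, hpb, hα, hα2, hu, hli, hlj, hsec, θ, hθ, hxθ⟩ :=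
    (h2 b hb).2 r₀ ⟨hr₀, le_refl _⟩ x hx hxr
  refine ⟨i, j, α, ⟨hqp, by rw [hpb]; exact hb, hr₀, hα, hα2, hu, hli, hlj, ?_⟩, θ, hθ, by
    rw [h3]; exact hxθ⟩
  intro s hs φ hφ
  refine ⟨hsec s hs φ hφ, ?_⟩
  have hd : dist (pt D.P j s φ) b = s := by
    rw [← hpb]; exact dist_pt D.P j hs.1 φ
  have h4 : D.rho (pt D.P j s φ) ≤ s := by
    have := infDist_le_dist_of_mem (x := pt D.P j s φ) hb
    rw [hd] at this
    exact this
  refine le_antisymm h4 ?_
  have h5 : ∀ b' ∈ D.B, s ≤ dist (pt D.P j s φ) b' := by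
    intro b' hb'
    by_cases hne : b' = b
    · rw [hne, hd]
    · have h6 := (h2 b hb).1 b' hb' hne
      have h7 : dist b b' ≤ dist b (pt D.P j s φ) + dist (pt D.P j s φ) b' := dist_triangle _ _ _
      rw [dist_comm b (pt D.P j s φ), hd] at h7
      have := hs.2
      linarith
  exact (le_infDist D.Bne).2 fun {b'} hb' => h5 b' hb'

end Pool.Agent.H15.EN
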