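import Pool.Agent.H93.EN.Targets4
import Pool.Agent.H31.BL.G1

/-!
# Charts at inner points of sides (row LSS of the board `en_modules`)
-/

set_option autoImplicit false

open MeasureTheory Set Metric Filter Topology Pool.Agent.H93.EN
open Pool.Agent.H93.BL hiding T_B1 T_B2 T_B3 T_SB T_SC

namespace Pool.Agent.H15.EN

variable {ι : Type}

lemma sg_eq_ip (P : Polygon ι) (j : ι) (y : ℂ) : sg P j y = ip (y - P.p j) (P.n j) := by
  unfold sg Polygon.n
  rw [ip_I_mul]

lemma sg_line (P : Polygon ι) (j : ι) (s : ℝ) : sg P j (P.p j + (s : ℂ) * P.u j) = 0 := by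
  unfold sg
  rw [add_sub_cancel_left, cr_smul_right, cr_self, mul_zero]

lemma sg_seg (P : Polygon ι) (j : ι) {y : ℂ} (hy : y ∈ segment ℝ (P.p j) (P.q j)) :
    sg P j y = 0 := by
  obtain ⟨s, -, -, rfl⟩ := (P.mem_segment_iff j y).1 hy
  exact sg_line P j s

lemma eq_of_sg (P : Polygon ι) (j : ι) {y : ℂ} (hy : sg P j y = 0) :
    y = P.p j + (ip (y - P.p j) (P.u j) : ℂ) * P.u j := by
  have h := decomp (P.u j) (y - P.p j) (P.norm_u j)
  have h2 : cr (P.u j) (y - P.p j) = 0 := hy
  rw [h2, Complex.ofReal_zero, zero_mul, add_zero] at h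
  linear_combination h

lemma dist_line (P : Polygon ι) (j : ι) (s s' : ℝ) :
    dist (P.p j + (s : ℂ) * P.u j) (P.p j + (s' : ℂ) * P.u j) = |s - s'| := by
  rw [dist_eq_norm]
  have : P.p j + (s : ℂ) * P.u j - (P.p j + (s' : ℂ) * P.u j) = ((s - s' : ℝ) : ℂ) * P.u j := by
    push_cast; ring
  rw [this, norm_mul, P.norm_u, mul_one, Complex.norm_real, Real.norm_eq_abs]

theorem lss (h1 : T_LS1) : T_LSS := by
  intro ι _ P
  obtain ⟨c₁, hc₁, hLS⟩ := h1 ι P
  refine ⟨min c₁ (1 / 2), lt_min hc₁ (by norm_num), fun j x hx => ?_⟩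
  obtain ⟨s, hs0, hs1, hxs⟩ := (P.mem_openSegment_iff j x).1 hx
  have hd0 : 0 ≤ infDist x (VV P) := infDist_nonneg
  have hdp : infDist x (VV P) ≤ s := by
    have hm : P.p j ∈ VV P := ⟨j, Or.inl rfl⟩
    have h2 := infDist_le_dist_of_mem (x := x) hm
    have h3 : dist x (P.p j) = s := by
      have h4 := dist_line P j s 0
      rw [Complex.ofReal_zero, zero_mul, add_zero, sub_zero, abs_of_pos hs0] at h4
      rw [hxs]; exact h4
    linarith
  have hdq : infDist x (VV P) ≤ P.len j - s := by
    have hm : P.q j ∈ VV P := ⟨j, Or.inr rfl⟩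
    have h2 := infDist_le_dist_of_mem (x := x) hm
    have h3 : dist x (P.q j) = P.len j - s := by
      have h4 := dist_line P j s (P.len j)
      rw [← P.q_eq j, abs_sub_comm, abs_of_pos (by linarith)] at h4
      rw [hxs]; exact h4
    linarith
  set d : ℝ := infDist x (VV P) with hd
  set R : ℝ := min c₁ (1 / 2) * d with hR
  have hR1 : R ≤ c₁ * d := mul_le_mul_of_nonneg_right (min_le_left _ _) hd0
  have hR2 : R ≤ 1 / 2 * d := mul_le_mul_of_nonneg_right (min_le_right _ _) hd0
  have hsgx : sg P j x = 0 := by rw [hxs]; exact sg_line P j s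
  refine ⟨hsgx.ge, ?_, ?_⟩
  · -- the half disc lies in the table
    by_cases hRpos : 0 < R
    swap
    · intro y hy
      rw [mem_ball] at hy
      exact absurd (dist_nonneg.trans_lt hy) hRpos
    have hip : ∀ y, ip (y - x) (P.n j) = sg P j y := by
      intro y
      have h2 : y - x = (y - P.p j) - (x - P.p j) := by ring
      rw [h2, ip_sub_left, ← sg_eq_ip, ← sg_eq_ip, hsgx, sub_zero]
    have hH : {y : ℂ | dist y x < R ∧ 0 < (1 : ℝ) * ip (y - x) (P.n j)} ⊆ P.Ω := by
      refine Pool.Agent.H31.BL.G1.subset_of_no_frontier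
        (Pool.Agent.H31.BL.G1.convex_ball_half x (P.n j) R 1).isPreconnected P.isOpen ?_ ?_
      · obtain ⟨ε, hε, hin⟩ := P.left j x hx
        have hlen := P.len_pos j
        have hI : Complex.I * (P.q j - P.p j) = (P.len j : ℂ) * P.n j := by
          rw [P.q_sub j, Polygon.n]; ring
        set t : ℝ := min (ε / 2) (R / (2 * P.len j)) with ht
        have ht0 : 0 < t := lt_min (by positivity) (by positivity)
        have ht1 : t < ε := (min_le_left _ _).trans_lt (by linarith)
        have ht2 : t * P.len j < R := by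
          have h1 : t ≤ R / (2 * P.len j) := min_le_right _ _
          have h2 : t * P.len j ≤ R / (2 * P.len j) * P.len j :=
            mul_le_mul_of_nonneg_right h1 hlen.le
          have h3 : R / (2 * P.len j) * P.len j = R / 2 := by field_simp
          linarith
        refine ⟨x + (t : ℂ) * (Complex.I * (P.q j - P.p j)), ⟨?_, ?_⟩, hin t ⟨ht0, ht1⟩⟩
        · rw [dist_eq_norm, add_sub_cancel_left, hI, norm_mul, norm_mul, P.norm_n,
            Complex.norm_real, Complex.norm_real, Real.norm_of_nonneg ht0.le,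
            Real.norm_of_nonneg hlen.le, mul_one]
          exact ht2
        · rw [add_sub_cancel_left, hI, ip_smul_left, ip_smul_left, P.ip_n_n, mul_one, one_mul]
          positivity
      · rintro y ⟨hy1, hy2⟩ hyf
        rw [one_mul, hip] at hy2
        rw [P.frontier_eq, mem_iUnion] at hyf
        obtain ⟨k, hk⟩ := hyf
        by_cases hjk : j = k
        · subst hjk
          rw [sg_seg P j hk] at hy2
          exact lt_irrefl _ hy2
        · rcases P.meet j k hjk with h | h
          · have h2 := hLS j k h x hx y hk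
            rw [dist_comm] at hy1
            linarith
          · rw [h.1, h.2, segment_symm] at hk
            rw [sg_seg P j hk] at hy2
            exact lt_irrefl _ hy2
    intro y hy hsy
    refine hH ⟨hy, ?_⟩
    rw [one_mul, hip]
    exact hsy
  · -- the chord lies in the open side
    intro y hy hsy
    have h2 := eq_of_sg P j hsy
    set s' : ℝ := ip (y - P.p j) (P.u j) with hs'
    rw [mem_ball, h2, hxs, dist_line] at hy
    obtain ⟨h3, h4⟩ := abs_lt.1 hy
    exact (P.mem_openSegment_iff j y).2 ⟨s', by linarith, by linarith, h2⟩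

end Pool.Agent.H15.EN
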