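import Pool.Agent.H93.EN.Targets4

/-!
# A telescoping sum (row SEQ of the board `en_modules`)
-/

set_option autoImplicit false

open MeasureTheory Set Metric Filter Topology Pool.Agent.H93.EN
open Pool.Agent.H93.BL hiding T_B1 T_B2 T_B3 T_SB T_SC

namespace Pool.Agent.H15.EN

theorem seq : T_SEQ := by
  intro H d M hH hd hlim hstep hM m
  have h1 : ∀ N : ℕ, H m ≤ H (m + 2 * N) + ∑ j ∈ Finset.range N, d (m + 2 * j + 1) := by
    intro N
    induction N with
    | zero => simp
    | succ N ih =>
      rw [Finset.sum_range_succ]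
      have h2 := hstep (m + 2 * N + 1)
      have h3 : m + 2 * (N : ℤ) + 1 - 1 = m + 2 * N := by ring
      have h4 : m + 2 * (N : ℤ) + 1 + 1 = m + 2 * ((N + 1 : ℕ) : ℤ) := by push_cast; ring
      rw [h3, h4] at h2
      have h5 := (abs_le.1 h2).1
      linarith
  have h2 : ∀ N : ℕ, H m ≤ H (m + 2 * N) + M := by
    intro N
    have h3 : ∑ j ∈ Finset.range N, d (m + 2 * j + 1) =
        ∑ k ∈ (Finset.range N).image (fun j : ℕ => m + 2 * (j : ℤ) + 1), d k := by
      rw [Finset.sum_image]
      intro a _ b _ hab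
      have : m + 2 * (a : ℤ) + 1 = m + 2 * (b : ℤ) + 1 := hab
      omega
    have h4 := hM ((Finset.range N).image (fun j : ℕ => m + 2 * (j : ℤ) + 1))
    rw [← h3] at h4
    linarith [h1 N]
  have h3 : Tendsto (fun N : ℕ => H (m + 2 * N) + M) atTop (𝓝 (0 + M)) := by
    refine Tendsto.add ?_ tendsto_const_nhds
    rw [← Nat.cofinite_eq_atTop]
    refine hlim.comp (Function.Injective.tendsto_cofinite ?_)
    intro a b hab
    have : m + 2 * (a : ℤ) = m + 2 * (b : ℤ) := hab
    omega
  rw [zero_add] at h3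
  exact ge_of_tendsto' h3 h2

end Pool.Agent.H15.EN
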